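import Pool.Agent.H207.WT.Asym

/-!
# The asymptotics of the twist numbers of weaving knots

For all `n ≥ 2` and `k ≥ 1` the `k`-th twist number `T_k(m)` of the weaving knot `W(n+1, m)` is
asymptotically equal to `((r + d)^k + r^k) m^k / k!` for `m → ∞`, where `d ∈ {0, 1}` is the parity
of `n` and `r = ⌊n/2⌋`.

Link diagrams and their Jones polynomial are those of the starting library
(`Pool.Agent.H891R2.Jones.Diagram`): `Diagram.fPoly D` is the normalised Kauffman bracket
`(-A³)^{-w(D)} ⟨D⟩`, a Laurent polynomial in `A`, and the Jones polynomial is obtained from it by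
`t = A⁻⁴`.  Braid words and the diagrams of their closures are those of
`Pool.Agent.W639.RB.Defs`.
-/

set_option autoImplicit false

namespace Pool.Agent.Results.MP_592c03_gt.TwistAsymptotics

open Filter Topology LaurentPolynomial Pool.Agent.H891R2.Jones Pool.Agent.W639.RB

/-- The word of the braid `(σ₁ σ₂⁻¹ σ₃ σ₄⁻¹ ⋯ σ_n^{±1})^m` on `n + 1` strands: its `t`-th letter
(`t = 0, …, nm - 1`) is the generator with the (0-based) number `t % n`, with a positive sign if
`t % n` is even and with a negative sign if `t % n` is odd. -/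
def weavingWord (n m : ℕ) : Fin (n * m) → Letter (n + 1) := fun t =>
  (decide (((t : ℕ) % n) % 2 = 0), ⟨(t : ℕ) % n, by
    have h := t.2
    have hn : 0 < n := by
      rcases Nat.eq_zero_or_pos n with h0 | h0
      · subst h0; simp at h
      · exact h0
    exact Nat.mod_lt _ hn⟩)

/-- The normalised Kauffman bracket `f(A) = V(A⁻⁴)` of the weaving knot (or link) `W(n + 1, m)`,
the closure of the braid `(σ₁ σ₂⁻¹ σ₃ σ₄⁻¹ ⋯ σ_n^{±1})^m`. -/
noncomputable def weavingPoly (n m : ℕ) : ℤ[T;T⁻¹] :=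
  (diagram (braidClosure (n + 1)) (weavingWord n m)).fPoly

/-- the lowest exponent of a Laurent polynomial -/
noncomputable def loExp (f : ℤ[T;T⁻¹]) : ℤ := sInf {e : ℤ | f.coeff e ≠ 0}

/-- the highest exponent of a Laurent polynomial -/
noncomputable def hiExp (f : ℤ[T;T⁻¹]) : ℤ := sSup {e : ℤ | f.coeff e ≠ 0}

/-- The `k`-th twist number of a link with the normalised Kauffman bracket `f(A) = V(A⁻⁴)`: a step
of `1` in the exponents of `t` is a step of `4` in the exponents of `A`. -/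
noncomputable def twistNumber (f : ℤ[T;T⁻¹]) (k : ℕ) : ℕ :=
  (f.coeff (loExp f + 4 * k)).natAbs + (f.coeff (hiExp f - 4 * k)).natAbs

/-- `d = (1 - (-1)^n) / 2` -/
noncomputable def d (n : ℕ) : ℝ := (1 - (-1) ^ n) / 2

/-- `r = (n - d) / 2` -/
noncomputable def r (n : ℕ) : ℝ := (n - d n) / 2

lemma d_eq (n : ℕ) : d n = ((n % 2 : ℕ) : ℝ) := by
  unfold d
  rcases Nat.even_or_odd n with h | h
  · rw [h.neg_one_pow, Nat.even_iff.1 h]
    norm_num
  · rw [h.neg_one_pow, Nat.odd_iff.1 h]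
    norm_num

lemma r_eq (n : ℕ) : r n = ((n / 2 : ℕ) : ℝ) := by
  unfold r
  rw [d_eq]
  have h : ((2 * (n / 2) + n % 2 : ℕ) : ℝ) = n := by
    exact_mod_cast (by omega : 2 * (n / 2) + n % 2 = n)
  push_cast at h ⊢
  linarith

/-- For all `n ≥ 2` and `k ≥ 1` the ratio of the twist number `T_k(W(n + 1, m))` and
`((r + d)^k + r^k) m^k / k!` tends to `1` for `m → ∞`. -/
theorem result (n : ℕ) (hn : 2 ≤ n) (k : ℕ) (hk : 1 ≤ k) :
    Tendsto (fun m : ℕ => (twistNumber (weavingPoly n m) k : ℝ) /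
      (((r n + d n) ^ k + r n ^ k) * (m : ℝ) ^ k / (k.factorial : ℝ))) atTop (𝓝 1) := by
  have h1 := Pool.Agent.H207.WT.twist_tendsto hn k hk
  have h2 : 0 < (r n + d n) ^ k + r n ^ k := by
    rw [d_eq, r_eq]
    have h3 : (0 : ℝ) < ((n / 2 : ℕ) : ℝ) := by exact_mod_cast (by omega : 0 < n / 2)
    positivity
  have hf : (0 : ℝ) < (k.factorial : ℝ) := by exact_mod_cast k.factorial_pos
  set c : ℝ := ((r n + d n) ^ k + r n ^ k) / (k.factorial : ℝ) with hc
  have hc0 : c ≠ 0 := (div_pos h2 hf).ne'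
  have h3 : ((((n / 2 + n % 2 : ℕ) : ℝ) ^ k + ((n / 2 : ℕ) : ℝ) ^ k) / (k.factorial : ℝ)) = c := by
    rw [hc, d_eq, r_eq]
    push_cast
    rfl
  rw [h3] at h1
  have h4 := h1.div_const c
  rw [div_self hc0] at h4
  refine h4.congr (fun m => ?_)
  have e1 : ((r n + d n) ^ k + r n ^ k) * (m : ℝ) ^ k / (k.factorial : ℝ) = (m : ℝ) ^ k * c := by
    rw [hc]
    ring
  rw [e1, ← div_div]
  rfl

end Pool.Agent.Results.MP_592c03_gt.TwistAsymptotics
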